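import Pool.Agent.H85R2.IA3Main

/-!
The graded Lie ring of the lower central series of `IA_3` is not a free Lie algebra modulo
quadratic relations. Let `m : x1 ↦ x1 [x2, x3]` and `a : x1 ↦ x2⁻¹ x1 x2`. Then `[[m, a], m]` lies in
the fourth term of the lower central series of `IA_3`, but the corresponding element of degree three
of `L[V]` is not in the ideal generated by the quadratic relations of `E_0^*(IA_3)`.
-/

namespace Pool.Agent.Results.MP_df4ecf_al.IA3NotQuadratic

open Pool.Agent.H85R2.GrLie

/-- The graded Lie ring `E_0^*(IA_3)` is not a free Lie algebra modulo quadratic relations. -/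
theorem result : ¬ IsFreeModQuadratic (IA 3) := ia3_not_quadratic

end Pool.Agent.Results.MP_df4ecf_al.IA3NotQuadratic
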